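import Pool.Agent.H602Z.KT.Spec

set_option autoImplicit false
set_option linter.unusedSectionVars false
set_option linter.unusedVariables false

/-!
Orthonormal bases of star subalgebras, and the passage from contractions to families.
-/

namespace Pool.Agent.H602Z.KT

open Matrix Finset Pool.Agent.H304Z.NH
open Pool.Agent.H726Z.NH Pool.Agent.H509Z.QE
open scoped MatrixOrder ComplexOrder

theorem onb : S_ONB := by
  intro n _ _ B
  let e : Mat n ≃ₗ[ℂ] EuclideanSpace ℂ (n × n) :=
    ((LinearEquiv.curry ℂ ℂ n n).symm : (n → n → ℂ) ≃ₗ[ℂ] (n × n → ℂ)).trans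
      (WithLp.linearEquiv 2 ℂ (n × n → ℂ)).symm
  have he : ∀ x z : Mat n, inner ℂ (e x) (e z) = trace (xᴴ * z) := by
    intro x z
    rw [PiLp.inner_apply, Fintype.sum_prod_type, Finset.sum_comm]
    simp only [trace, diag_apply, Matrix.mul_apply, conjTranspose_apply]
    refine sum_congr rfl fun i _ => sum_congr rfl fun j _ => ?_
    change inner ℂ (x j i) (z j i) = _
    simp [mul_comm]
  let U : Submodule ℂ (EuclideanSpace ℂ (n × n)) :=
    (Subalgebra.toSubmodule B.toSubalgebra).map (e : Mat n →ₗ[ℂ] EuclideanSpace ℂ (n × n))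
  let b := stdOrthonormalBasis ℂ U
  refine ⟨Fin (Module.finrank ℂ U), inferInstance, inferInstance, fun a => e.symm (b a), ?_, ?_, ?_⟩
  · intro a
    obtain ⟨x, hx, ex⟩ := (b a).2
    rw [← ex]
    simpa using hx
  · intro a c
    rw [← he, e.apply_symm_apply, e.apply_symm_apply, ← Submodule.coe_inner]
    exact orthonormal_iff_ite.1 b.orthonormal a c
  · intro x hx
    have h := congrArg (fun v : U => e.symm v) (b.sum_repr' ⟨e x, x, hx, rfl⟩)
    simp only [Submodule.coe_sum, map_sum, Submodule.coe_smul, map_smul, e.symm_apply_apply,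
      Submodule.coe_inner] at h
    simpa only [← he, e.apply_symm_apply] using h

variable {n : Type} [Fintype n] [DecidableEq n]

theorem nsq_par (x z : Mat n) : nsq (x + z) + nsq (x - z) = 2 * nsq x + 2 * nsq z := by
  rw [nsq_add, nsq_sub]
  ring

theorem sign_lemma {κ : Type} (β : ℝ) (hβ : 0 ≤ β) (h : κ → Mat n) (hh : ∀ a, (h a)ᴴ = h a)
    (s : Finset κ) : ∀ Q : Mat n → ℝ, Q 0 = 0 →
      (∀ x z, Q (x + z) + Q (x - z) = 2 * Q x + 2 * Q z) →
      ∃ x : Mat n, xᴴ = x ∧ ∑ a ∈ s, Q (h a) - 3 * β * tr ((∑ a ∈ s, h a * h a) *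
        ∑ a ∈ s, h a * h a) ≤ Q x - β * tr (x * x * (x * x)) := by
  classical
  induction s using Finset.induction_on with
  | empty => exact fun Q h0 _ => ⟨0, by simp, by simp [h0, tr_zero]⟩
  | insert c s hc ih =>
    intro Q h0 hQ
    obtain ⟨x, hx, e⟩ := ih (fun x => Q x - 6 * β * tr (x * x * (h c * h c)))
      (by simp [h0, tr_zero]) (fun x z => by
        have e1 : (x + z) * (x + z) * (h c * h c) + (x - z) * (x - z) * (h c * h c) =
            (x * x * (h c * h c) + x * x * (h c * h c)) +
              (z * z * (h c * h c) + z * z * (h c * h c)) := by noncomm_ring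
        have e2 := congrArg tr e1
        simp only [tr_add] at e2
        linear_combination hQ x z - 6 * β * e2)
    set g := h c with hg
    set t := ∑ a ∈ s, h a * h a with ht
    have hgg : gᴴ = g := hh c
    have e1 : ∑ a ∈ s, (Q (h a) - 6 * β * tr (h a * h a * (g * g))) =
        ∑ a ∈ s, Q (h a) - 6 * β * tr (t * (g * g)) := by
      rw [sum_sub_distrib, ← mul_sum, ← tr_sum, ← Finset.sum_mul]
    rw [e1] at e
    have e2 : tr ((g * g + t) * (g * g + t)) =
        tr (g * g * (g * g)) + 2 * tr (t * (g * g)) + tr (t * t) := by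
      rw [Matrix.add_mul, Matrix.mul_add, Matrix.mul_add, tr_add, tr_add, tr_add,
        tr_comm (g * g) t]
      ring
    have e3 : tr ((x + g) * (x + g) * ((x + g) * (x + g))) +
        tr ((x - g) * (x - g) * ((x - g) * (x - g))) = 2 * (tr (x * x * (x * x)) +
          4 * tr (x * x * (g * g)) + 2 * tr (x * g * (x * g)) + tr (g * g * (g * g))) := by
      have e4 : (x + g) * (x + g) * ((x + g) * (x + g)) + (x - g) * (x - g) * ((x - g) * (x - g)) =
          (2 : ℝ) • (x * x * (x * x) + x * x * (g * g) + x * g * (x * g) + x * (g * g * x) +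
            g * (x * x * g) + g * (x * g * x) + g * g * (x * x) + g * g * (g * g)) := by
        rw [two_smul]
        noncomm_ring
      have e5 := congrArg tr e4
      simp only [tr_add, tr_smul] at e5
      rw [e5, tr_comm x (g * g * x), tr_comm g (x * x * g), tr_comm g (x * g * x),
        Matrix.mul_assoc (g * g) x x, tr_comm (g * g) (x * x), Matrix.mul_assoc (x * x) g g,
        Matrix.mul_assoc (x * g) x g]
      ring
    have e6 : tr (x * g * (x * g)) ≤ tr (x * x * (g * g)) := by
      have := nsq_nonneg (x * g - g * x)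
      rw [nsq_sub, nsq_mul, nsq_mul, conjTranspose_mul, hx, hgg, tr_comm (g * g),
        tr_comm (g * x) (g * x)] at this
      have e7 : tr (g * x * (g * x)) = tr (x * g * (x * g)) := by
        rw [Matrix.mul_assoc g x, tr_comm g]
        simp only [Matrix.mul_assoc]
      linarith
    have e8 : 0 ≤ tr (g * g * (g * g)) := by
      have := nsq_nonneg (g * g)
      rwa [Pool.Agent.H304Z.NH.nsq_eq, conjTranspose_mul, hgg] at this
    rw [sum_insert hc, sum_insert hc, ← hg, ← ht, e2]
    have hq := hQ x g
    by_contra hcon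
    push Not at hcon
    have a1 := hcon (x + g) (by rw [conjTranspose_add, hx, hgg])
    have a2 := hcon (x - g) (by rw [conjTranspose_sub, hx, hgg])
    nlinarith [mul_nonneg hβ e8, mul_le_mul_of_nonneg_left e6 hβ]

theorem en_rp {G : Type} {u : G → Mat n} (hu : ∀ g, IsU (u g)) (S : Finset G) (x : Mat n) :
    en u S (rp x) ≤ en u S x := by
  refine sum_le_sum fun s _ => ?_
  rw [rp, cm_smul, nsq_smul, cm_add]
  have h1 := nsq_add_le (cm (u s) x) (cm (u s) xᴴ)
  have h2 : nsq (cm (u s) xᴴ) = nsq (cm (u s) x) := by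
    have e : (cm (u s) xᴴ)ᴴ = (u s)ᴴ * cm (u s) x * (u s)ᴴ := by
      simp only [cm, conjTranspose_sub, conjTranspose_mul, conjTranspose_conjTranspose,
        Matrix.mul_sub, Matrix.sub_mul]
      rw [← Matrix.mul_assoc, (hu s).1, Matrix.one_mul, Matrix.mul_assoc, Matrix.mul_assoc,
        (hu s).2, Matrix.mul_one]
    rw [← nsq_star, e, nsq_mul_U (hu s).star, nsq_U_mul (hu s).star]
  linarith

theorem nsq_unit (c : ℂ) (hc : star c * c = 1) (x : Mat n) : nsq (c • x) = nsq x := by
  rw [nsq, I_sq c hc, nsq]

theorem fam : S_FAM := by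
  intro M C η hC hη
  set A : ℝ := 2 + 16 * C * M with hA
  have hA0 : 0 ≤ A := by positivity
  set K : ℝ := 1 + 24 * A / η with hK
  have hK1 : 1 ≤ K := le_add_of_nonneg_right (by positivity)
  have hK0 : 0 < K := by linarith
  refine ⟨η / (16 * K ^ 2), by positivity, ?_⟩
  intro n _ _ G u S hS hu B ι _ _ y hy H κ _ x hL hR
  have hd : (0 : ℝ) ≤ Fintype.card n := Nat.cast_nonneg _
  have tail : ∀ z : Mat n, zᴴ = z → nsq (z - EB y z) - 4 * C * en u S z ≤
      A / K ^ 2 * tr (z * z * (z * z)) + η / 8 * Fintype.card n := by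
    intro z hz
    obtain ⟨V, lam, hV, rfl⟩ := spec hz
    set φ : ℝ → ℝ := fun t => max (-K) (min K t) with hφ
    set w := D V fun i => φ (lam i) with hw
    have h1 : nsq (D V lam - w) ≤ tr (D V lam * D V lam * (D V lam * D V lam)) / K ^ 2 := by
      rw [hw, D_sub, Pool.Agent.H304Z.NH.nsq_eq, D_star, D_mul hV, D_mul hV, D_mul hV, tr_D hV,
        tr_D hV, sum_div]
      refine sum_le_sum fun i _ => ?_
      rw [le_div_iff₀ (by positivity)]
      simp only [hφ]
      rcases le_total (lam i) (-K) with a | a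
      · rw [min_eq_right (by linarith), max_eq_left a]
        have b1 : K ^ 2 ≤ lam i * lam i := by nlinarith
        have b2 : (lam i - -K) * (lam i - -K) ≤ lam i * lam i := by nlinarith
        exact mul_le_mul b2 b1 (by positivity) (mul_self_nonneg _)
      rcases le_total (lam i) K with b | b
      · rw [min_eq_right b, max_eq_right a, sub_self]
        have := mul_self_nonneg (lam i * lam i)
        linarith
      · rw [min_eq_left b, max_eq_right (by linarith)]
        have b1 : K ^ 2 ≤ lam i * lam i := by nlinarith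
        have b2 : (lam i - K) * (lam i - K) ≤ lam i * lam i := by nlinarith
        exact mul_le_mul b2 b1 (by positivity) (mul_self_nonneg _)
    obtain ⟨a, ha, h2⟩ := H (K⁻¹ • w) (by
      rw [hw, D_smul, D_star, D_mul hV, ← D_one hV]
      refine D_le V fun i => ?_
      have h1 : -K ≤ φ (lam i) := le_max_left _ _
      have h2 : φ (lam i) ≤ K := max_le (by linarith) (min_le_left _ _)
      have h3 : φ (lam i) * φ (lam i) ≤ K * K := by nlinarith
      calc K⁻¹ * φ (lam i) * (K⁻¹ * φ (lam i)) = φ (lam i) * φ (lam i) / (K * K) := by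
            field_simp
        _ ≤ 1 := (div_le_one (by positivity)).2 h3)
    have h3 : en u S (K⁻¹ • w) = K⁻¹ ^ 2 * en u S w := by
      simp only [en, cm_smul, nsq_smul, mul_sum]
    have h4 : nsq (w - K • a) ≤ C * en u S w + η / 16 * Fintype.card n := by
      have e : w - K • a = K • (K⁻¹ • w - a) := by
        rw [smul_sub, smul_smul, mul_inv_cancel₀ hK0.ne', one_smul]
      rw [e, nsq_smul]
      refine (mul_le_mul_of_nonneg_left h2 (by positivity)).trans (le_of_eq ?_)
      rw [h3]
      field_simp
    have h5 : en u S w ≤ 2 * en u S (D V lam) + 8 * M * nsq (D V lam - w) := by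
      have : en u S w ≤ ∑ s ∈ S, (2 * nsq (cm (u s) (D V lam)) + 8 * nsq (D V lam - w)) := by
        refine sum_le_sum fun s _ => ?_
        have e : cm (u s) w = cm (u s) (D V lam) - cm (u s) (D V lam - w) := by
          rw [cm_sub]; abel
        have b1 := nsq_sub_le (cm (u s) (D V lam)) (cm (u s) (D V lam - w))
        have b2 := nsq_cm_le (hu s) (D V lam - w)
        rw [e]
        linarith
      rw [sum_add_distrib, ← mul_sum, sum_const, nsmul_eq_mul] at this
      have b3 : (S.card : ℝ) ≤ M := Nat.cast_le.2 hS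
      have b4 := mul_le_mul_of_nonneg_right b3 (nsq_nonneg (D V lam - w))
      unfold en at this ⊢
      linarith
    have h6 := best hy (rsmul_mem B K ha) (D V lam)
    have h7 := nsq_add_le (D V lam - w) (w - K • a)
    rw [sub_add_sub_cancel] at h7
    have h8 := mul_le_mul_of_nonneg_left h5 hC
    have h9 := mul_le_mul_of_nonneg_left h1 hA0
    rw [div_mul_eq_mul_div, mul_div_assoc]
    rw [hA] at h9 ⊢
    nlinarith
  have herm_fam : ∀ h : κ → Mat n, (∀ a, (h a)ᴴ = h a) → ∑ a, h a * h a ≤ 1 →
      NB y h ≤ 4 * C * EE u S h + η / 4 * Fintype.card n := by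
    intro h hh hs
    obtain ⟨z, hz, e⟩ := sign_lemma (A / K ^ 2) (by positivity) h hh univ
      (fun z => nsq (z - EB y z) - 4 * C * en u S z)
      (by simp [EB, en, cm, nsq_zero]) (fun a b => by
        have e1 : a + b - EB y (a + b) = (a - EB y a) + (b - EB y b) := by rw [EB_add]; abel
        have e2 : a - b - EB y (a - b) = (a - EB y a) - (b - EB y b) := by rw [EB_sub]; abel
        have e3 : en u S (a + b) + en u S (a - b) = 2 * en u S a + 2 * en u S b := by
          simp only [en, cm_add, cm_sub, mul_sum, ← sum_add_distrib, nsq_par]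
        rw [e1, e2]
        linear_combination nsq_par (a - EB y a) (b - EB y b) - 4 * C * e3)
    have h0 : (0 : Mat n) ≤ ∑ a, h a * h a := sum_nonneg fun a _ => by
      have := star_mul_nonneg (h a)
      rwa [hh a] at this
    have h1 := nsq_mono h0 hs
    rw [Pool.Agent.H304Z.NH.nsq_eq, herm h0, isProj_one.nsq_eq, tr_one] at h1
    have h2 := tail z hz
    have h3 : A / K ^ 2 ≤ η / 24 := by
      rw [div_le_iff₀ (by positivity)]
      have b1 : η / 24 * K = η / 24 + A := by rw [hK]; field_simp
      nlinarith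
    have h4 : 0 ≤ A / K ^ 2 := by positivity
    rw [sum_sub_distrib, ← mul_sum] at e
    unfold NB EE
    nlinarith [mul_le_mul_of_nonneg_left h1 h4, mul_le_mul_of_nonneg_right h3 hd]
  have half : ∀ z : κ → Mat n, LL z ≤ 1 → RR z ≤ 1 →
      NB y (fun a => rp (z a)) ≤ 4 * C * EE u S z + η / 4 * Fintype.card n := by
    intro z h1 h2
    refine (herm_fam _ (fun a => rp_star _) ?_).trans ?_
    · have b1 : ∑ a, rp (z a) * rp (z a) ≤ ∑ a, ((1 / 2 : ℝ) • ((z a)ᴴ * z a) +
          (1 / 2 : ℝ) • (z a * (z a)ᴴ)) := by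
        refine sum_le_sum fun a _ => ?_
        have b := rsmul_le (r := 1 / 4) (by norm_num) (par_le (z a) (z a)ᴴ)
        rw [conjTranspose_conjTranspose, smul_add, smul_smul, smul_smul] at b
        have e : rp (z a) * rp (z a) = (1 / 4 : ℝ) • ((z a + (z a)ᴴ)ᴴ * (z a + (z a)ᴴ)) := by
          rw [conjTranspose_add, conjTranspose_conjTranspose, add_comm (z a)ᴴ, rp,
            Matrix.smul_mul, Matrix.mul_smul, smul_smul]
          norm_num
        rw [e]
        convert b using 3 <;> norm_num
      rw [sum_add_distrib, ← smul_sum, ← smul_sum] at b1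
      refine b1.trans ((add_le_add (rsmul_le (by norm_num) h2) (rsmul_le (by norm_num) h1)).trans
        (le_of_eq ?_))
      rw [← add_smul]
      norm_num
    · have : EE u S (fun a => rp (z a)) ≤ EE u S z := sum_le_sum fun a _ => en_rp hu S _
      nlinarith
  have hI : star Complex.I * Complex.I = 1 := by simp
  have hI' : star (-Complex.I) * (-Complex.I) = 1 := by simp
  have p1 := half x hL hR
  have p2 := half (fun a => (-Complex.I) • x a) (by
    have : LL (fun a => (-Complex.I) • x a) = LL x := sum_congr rfl fun a _ => by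
      rw [conjTranspose_smul, Matrix.smul_mul, Matrix.mul_smul, smul_smul, mul_comm, hI', one_smul]
    rwa [this]) (by
    have : RR (fun a => (-Complex.I) • x a) = RR x := sum_congr rfl fun a _ => I_sq _ hI' _
    rwa [this])
  have p3 : EE u S (fun a => (-Complex.I) • x a) = EE u S x :=
    sum_congr rfl fun a _ => sum_congr rfl fun s _ => by
      have : cm (u s) ((-Complex.I) • x a) = (-Complex.I) • cm (u s) (x a) := by
        simp only [cm, Matrix.mul_smul, Matrix.smul_mul, smul_sub]
      rw [this, nsq_unit _ hI']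
  have p4 : NB y x ≤ 2 * NB y (fun a => rp (x a)) +
      2 * NB y (fun a => rp ((-Complex.I) • x a)) := by
    unfold NB
    rw [mul_sum, mul_sum, ← sum_add_distrib]
    refine sum_le_sum fun a _ => ?_
    have e1 : ∀ z, EB y (Complex.I • z) = Complex.I • EB y z := fun z => by
      simp only [EB, Matrix.mul_smul, trace_smul, smul_sum, smul_assoc]
    have e2 : x a - EB y (x a) = (rp (x a) - EB y (rp (x a))) +
        Complex.I • (rp ((-Complex.I) • x a) - EB y (rp ((-Complex.I) • x a))) := by
      conv_lhs => rw [rp_dec (x a)]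
      rw [EB_add, e1, smul_sub]
      abel
    rw [e2, ← nsq_unit _ hI (rp ((-Complex.I) • x a) - _)]
    exact nsq_add_le _ _
  rw [p3] at p2
  linarith

end Pool.Agent.H602Z.KT
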